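import Pool.Agent.Helper72.LSr.N1
import Pool.Agent.Helper72.LSr.C1

/-!
# Piece LR-I10: sums over all vertices
-/

namespace Pool.Agent.Helper64.LSr

open Finset
open scoped Classical
open Pool.Agent.Helper72.LSr

theorem es_choose (k A i : ℕ) : es k A 0 (i + 1) = (A.choose i : ℤ) * (k : ℤ) ^ i := by
  induction A generalizing i with
  | zero =>
    rcases i with _ | i
    · rw [es_one]; simp
    · rw [show i + 1 + 1 = i + 2 from rfl, es_empty]; simp
  | succ A ih =>
    rcases i with _ | i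
    · rw [es_one]; simp
    · rw [es_sA, ih (i + 1), ih i, Nat.choose_succ_succ]
      push_cast
      ring

theorem es_rec_one (k A i : ℕ) :
    ((i : ℤ) + 1) * es k (A + 1) 0 (i + 2) = ((A : ℤ) + 1) * k * es k A 0 (i + 1) := by
  rw [show i + 2 = (i + 1) + 1 from rfl, es_choose, es_choose]
  have h : (((A + 1) * A.choose i : ℕ) : ℤ) = (((A + 1).choose (i + 1) * (i + 1) : ℕ) : ℤ) := by
    exact_mod_cast Nat.add_one_mul_choose_eq A i
  push_cast at h
  rw [pow_succ]
  linear_combination (-(k : ℤ) ^ i * k) * h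

theorem es_rec_two (k A i : ℕ) :
    ((i : ℤ) + 1) * es k (A + 1) 0 (i + 2) = ((A : ℤ) + 1 - i) * k * es k (A + 1) 0 (i + 1) := by
  rcases i with _ | i
  · have h := es_rec_one k A 0
    rw [show 0 + 1 = 1 from rfl, es_one] at h ⊢
    push_cast at h ⊢
    rw [h]; ring
  · have h1 := es_rec_one k A (i + 1)
    have h2 := es_rec_one k A i
    have h3 := es_sA k A 0 (i + 1)
    rw [show i + 1 + 1 = i + 2 from rfl] at h1 h3 ⊢
    push_cast at h1 h2 ⊢
    linear_combination h1 + (k : ℤ) * h2 - ((A : ℤ) + 1) * k * h3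

variable {V : Type} (G : SimpleGraph V) (S : Finset V)

theorem id_zero (k A j : ℕ) :
    ∑ v ∈ S, Yr k (A + 1) 0 (j + 1) G S v
      = (A + 1) * k * es k A 0 (j + 1) * gS k (A + 1) 0 G S
        - (j + 3) * Phi k (A + 1) 0 (j + 2) G S := by
  have hK := succ_K G S (j + 2)
  have hm := two_K_two G S
  have h1 := es_rec_one k A j
  have h2 := es_rec_two k A (j + 1)
  have h3 := es_rec_two k A (j + 2)
  have h2' := es_rec_two k A j
  have he2 := two_es3 k (A + 1) 0
  unfold Yr Phi gS gg Vl th nu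
  rw [sum_sub_distrib, sum_add_distrib, ← mul_sum, sum_sub_distrib, sum_const, sum_const,
    ← hK, ← hm]
  have hE : EE k (A + 1) 0 = (A + 1) * k := by unfold EE; push_cast; ring
  rw [hE] at he2 ⊢
  rw [show j + 1 + 2 = j + 3 from rfl, show j + 1 + 1 = j + 2 from rfl] at h2
  rw [show j + 2 + 2 = j + 4 from rfl, show j + 2 + 1 = j + 3 from rfl] at h3
  rw [show j + 1 + 2 = j + 3 from rfl, show j + 1 + 1 = j + 2 from rfl,
    show j + 2 + 2 = j + 4 from rfl, show j + 2 + 1 = j + 3 from rfl]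
  push_cast at h1 h2 h3 he2 ⊢
  simp only [nsmul_eq_mul]
  generalize es k (A + 1) 0 3 = e2 at *
  generalize es k (A + 1) 0 (j + 4) = a4 at *
  generalize es k (A + 1) 0 (j + 3) = a3 at *
  generalize es k (A + 1) 0 (j + 2) = a2 at *
  generalize es k A 0 (j + 1) = l at *
  generalize K G S 2 = m at *
  generalize K G S (j + 3) = kk at *
  generalize (S.card : ℤ) = n at *
  linear_combination (k * (n - (A + 1) * k - k) - (m - e2 - (n - (A + 1) * k) * ((A + 1) * k))) * h1
    + a2 * he2 - (n - (A + 1) * k - k) * h2 - h3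

theorem id_sumD (k A B : ℕ) :
    ∑ v ∈ S, (MS k A B S + 1 - Dv k A B G S v)
      = A * k + (k - MS k A B S) * (MS k A B S + 1) + 2 * rS k A B G S := by
  have hm := two_K_two G S
  have he2 := two_es3 k A B
  unfold MS Mm Dv rS rho th nu
  simp only [sum_sub_distrib, sum_const, nsmul_eq_mul]
  rw [← hm]
  have hE : EE k A B = A * k + B * (k + 1) := rfl
  rw [hE] at he2 ⊢
  linear_combination he2

end Pool.Agent.Helper64.LSr
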