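import Pool.Agent.Helper72.LSr.S6e

/-!
# Piece LR-M7: the case `X_w ≤ 0` of the main lemma
-/

namespace Pool.Agent.Helper64.LSr

open Finset
open scoped Classical
open Pool.Agent.Helper72.LSr

variable {V : Type} {j : ℕ} {G : SimpleGraph V} {S : Finset V} {k A B : ℕ} {w : V}

theorem M7_Qs_subset (y : V) : Qs G S w y ⊆ nb G S w := by
  intro x hx
  unfold Qs at hx
  rw [mem_filter] at hx
  rw [mem_nb]
  exact ⟨hx.1, hx.2.1⟩

theorem M7_mem_Qf {R : Finset V} {f : V → ℕ} {u x : V} :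
    x ∈ Qf G R f u ↔ x ∈ R ∧ G.Adj u x ∧ f x < f u := by
  unfold Qf
  rw [mem_filter]

/-- the case `X_w ≤ 0` -/
theorem ml_le (h : ML V j G S k A B w) (hX : Dv k (A + 1) B G S w ≤ MS k (A + 1) B S) :
    False := by
  obtain ⟨f, hf, -⟩ := exists_order (NH G S w) (fun _ => (0 : ℤ))
  have h2 := id_two_le G S h.hw k A B j f hf
  obtain ⟨hPL, hkap⟩ := ml_L h
  obtain ⟨-, hlam, hZ⟩ := ml_main h
  have hE4 := id_E4 G S h.hw k (A + 1) B
  have hcard := card_NH G S h.hw k (A + 1) B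
  have hmm : K G (NH G S w) 2 = ∑ y ∈ NH G S w, ((Qf G (NH G S w) f y).card : ℤ) := by
    rw [show (2 : ℕ) = 1 + 1 from rfl, K_last G (NH G S w) f hf 1]
    exact sum_congr rfl fun y _ => K_one G _
  have hQ := h.hQ
  have hY := h.hY
  have hD1 := h.hD w h.hw
  have hrm : 0 ≤ max (-(rS k (A + 1) B G S)) 0 := le_max_right _ _
  have hlrm : 0 ≤ es k A B (j + 1) * max (-(rS k (A + 1) B G S)) 0 :=
    mul_nonneg (by linarith) hrm
  have hmm0 : 0 ≤ K G (NH G S w) 2 := K_nonneg G _ _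
  have hcard0 : (0 : ℤ) ≤ ((NH G S w).card : ℤ) := by positivity
  have hp : 0 ≤ (MS k (A + 1) B S - Dv k (A + 1) B G S w) *
      (es k A B (j + 1) * Yv k (A + 1) B G S w) :=
    mul_nonneg (by linarith) (mul_nonneg (by linarith) (by linarith))
  by_cases hall : ∀ y ∈ NH G S w, ∀ y' ∈ Qf G (NH G S w) f y,
      aa k A B j G S w (Qs G S w y ∪ Qs G S w y') ≤ 0
  · have hs1 : ∑ y ∈ NH G S w, ∑ y' ∈ Qf G (NH G S w) f y,
        aa k A B j G S w (Qs G S w y ∪ Qs G S w y') ≤ 0 :=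
      sum_nonpos fun y hy => sum_nonpos fun y' hy' => hall y hy y' hy'
    have hs2 : ∑ _y ∈ NH G S w, (- Phi k A B (j + 1) G (nb G S w))
        ≤ ∑ y ∈ NH G S w, gam k A B j G S w (Qs G S w y) :=
      sum_le_sum fun y _ => ml_gam h (M7_Qs_subset y)
    rw [sum_const, nsmul_eq_mul, hcard] at hs2
    linarith
  · push Not at hall
    obtain ⟨y0, hy0, y0', hy0', hpos0⟩ := hall
    have hne : (((NH G S w) ×ˢ (NH G S w)).filter
        (fun p : V × V => p.2 ∈ Qf G (NH G S w) f p.1)).Nonempty :=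
      ⟨(y0, y0'), by
        rw [mem_filter, mem_product]
        exact ⟨⟨hy0, (M7_mem_Qf.1 hy0').1⟩, hy0'⟩⟩
    obtain ⟨p, hp1, hp2⟩ := exists_max_image _
      (fun p : V × V => aa k A B j G S w (Qs G S w p.1 ∪ Qs G S w p.2)) hne
    rw [mem_filter, mem_product] at hp1
    set a := aa k A B j G S w (Qs G S w p.1 ∪ Qs G S w p.2) with ha
    have hmax : ∀ y ∈ NH G S w, ∀ y' ∈ Qf G (NH G S w) f y,
        aa k A B j G S w (Qs G S w y ∪ Qs G S w y') ≤ a := by
      intro y hy y' hy'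
      exact hp2 (y, y') (by
        rw [mem_filter, mem_product]
        exact ⟨⟨hy, (M7_mem_Qf.1 hy').1⟩, hy'⟩)
    have hpos : 0 < a := lt_of_lt_of_le hpos0 (hmax y0 hy0 y0' hy0')
    have hm : 1 ≤ K G (NH G S w) 2 := by
      rw [hmm]
      have h1 : ((Qf G (NH G S w) f y0).card : ℤ)
          ≤ ∑ y ∈ NH G S w, ((Qf G (NH G S w) f y).card : ℤ) :=
        single_le_sum (f := fun y => ((Qf G (NH G S w) f y).card : ℤ))
          (fun y _ => by positivity) hy0
      have h2 : (1 : ℤ) ≤ ((Qf G (NH G S w) f y0).card : ℤ) := by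
        exact_mod_cast card_pos.2 ⟨y0', hy0'⟩
      linarith
    have hstep : ∀ x ∈ nb G S w,
        a ≤ es k (A + 1) B (j + 2) - K G (nb G S w ∩ nb G S x) (j + 1) := fun x hx =>
      ml_step1 h hm hp1.1.1 hp1.1.2 (M7_mem_Qf.1 hp1.2).2.1 hpos hx
    have hs1 : ∑ y ∈ NH G S w, ∑ y' ∈ Qf G (NH G S w) f y,
        aa k A B j G S w (Qs G S w y ∪ Qs G S w y') ≤ K G (NH G S w) 2 * a := by
      rw [hmm, sum_mul]
      apply sum_le_sum
      intro y hy
      have h1 := sum_le_sum (fun y' hy' => hmax y hy y' hy')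
      rw [sum_const, nsmul_eq_mul] at h1
      exact h1
    have hs2 : (∑ y ∈ NH G S w, ((Qs G S w y).card : ℤ)) * a
        ≤ ∑ y ∈ NH G S w, gam k A B j G S w (Qs G S w y) := by
      rw [sum_mul]
      apply sum_le_sum
      intro y _
      have h1 := gam_ge G S k A B j (M7_Qs_subset (G := G) (S := S) (w := w) y)
      have h3 := sum_le_sum (fun x hx => hstep x (M7_Qs_subset (G := G) (S := S) (w := w) y hx))
      rw [sum_const, nsmul_eq_mul] at h3
      linarith
    have hq : 0 ≤ (∑ y ∈ NH G S w, ((Qs G S w y).card : ℤ)) - K G (NH G S w) 2 := by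
      rw [hE4]
      nlinarith
    have hqa : 0 ≤ ((∑ y ∈ NH G S w, ((Qs G S w y).card : ℤ)) - K G (NH G S w) 2) * a :=
      mul_nonneg hq hpos.le
    have hkk : 0 ≤ (k + (Dv k (A + 1) B G S w - MS k (A + 1) B S)) *
        Phi k A B (j + 1) G (nb G S w) := by
      apply mul_nonneg _ hkap
      rw [hcard] at hcard0
      linarith
    linarith

end Pool.Agent.Helper64.LSr
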